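import Pool.Agent.Lib.MP_59f35a_mp.Final

/-!
# MP_59f35a_mp, Q1: the neutral split is not always the unique minimiser

Disproof of Q1: there are two groups of nuclei, all of charge one, and a non-neutral split of the
electrons whose energy is at most the energy of the neutral split.
-/

namespace Pool.Agent.Results.MP_59f35a_mp.NeutralSplitFails

open MolDis

/-- There are two nonempty groups of nuclei, all of charge `1`, at pairwise distinct positions, and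
`N₁ ≠ |Z₁|`, `N₁ ≤ N = |Z₁| + |Z₂|`, with `S(N₁) ≤ S(|Z₁|)`,
`S(N₁) = E_{N₁}(Y₁, Z₁) + E_{N - N₁}(Y₂, Z₂)`. -/
theorem result :
    ∃ (M₁ M₂ : ℕ) (Y₁ : Fin M₁ → E3) (Y₂ : Fin M₂ → E3) (Z₁ : Fin M₁ → ℕ) (Z₂ : Fin M₂ → ℕ)
      (N₁ : ℕ),
      0 < M₁ ∧ 0 < M₂ ∧ (∀ m, Z₁ m = 1) ∧ (∀ m, Z₂ m = 1) ∧
      Function.Injective (Sum.elim Y₁ Y₂) ∧
      N₁ ≤ ∑ m, Z₁ m + ∑ m, Z₂ m ∧ N₁ ≠ ∑ m, Z₁ m ∧
      molEnergy N₁ Y₁ Z₁ + molEnergy (∑ m, Z₁ m + ∑ m, Z₂ m - N₁) Y₂ Z₂ ≤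
        molEnergy (∑ m, Z₁ m) Y₁ Z₁ + molEnergy (∑ m, Z₂ m) Y₂ Z₂ := by
  by_contra hcon
  refine not_PQ1 ?_
  intro M₁ M₂ Y₁ Y₂ hM1 hM2 hY1 hY2 N₁ hN1 hN2
  obtain ⟨a, ha⟩ : ∃ a : E3, ∀ m m', Y₁ m ≠ a + Y₂ m' := by
    set S : Finset E3 := Finset.univ.image (fun p : Fin M₁ × Fin M₂ => Y₁ p.1 - Y₂ p.2) with hS
    obtain ⟨a, ha⟩ := Infinite.exists_notMem_finset S
    refine ⟨a, fun m m' hmm => ha ?_⟩
    rw [hS, Finset.mem_image]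
    exact ⟨(m, m'), Finset.mem_univ _, by simp only; rw [hmm]; abel⟩
  have hinj : Function.Injective (Sum.elim Y₁ (fun m => a + Y₂ m)) :=
    Function.Injective.sumElim hY1 (fun x y hxy => hY2 (add_left_cancel hxy)) ha
  by_contra hlt
  push Not at hlt
  apply hcon
  refine ⟨M₁, M₂, Y₁, fun m => a + Y₂ m, fun _ => 1, fun _ => 1, N₁, hM1, hM2, fun _ => rfl,
    fun _ => rfl, hinj, ?_, ?_, ?_⟩
  · simpa using hN1
  · simpa using hN2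
  · simp only [Finset.sum_const, Finset.card_univ, Fintype.card_fin, smul_eq_mul, mul_one]
    rw [Bridge.mol_eq_En Chain.en, Bridge.mol_eq_En Chain.en, Bridge.mol_eq_En Chain.en,
      Bridge.mol_eq_En Chain.en]
    obtain ⟨-, -, -, -, htr, -⟩ := Chain.en
    rw [htr (Fin M₂) Y₂ M₂ a, htr (Fin M₂) Y₂ (M₁ + M₂ - N₁) a]
    exact hlt

end Pool.Agent.Results.MP_59f35a_mp.NeutralSplitFails
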